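import Pool.Agent.helper51.NP.Spec

set_option autoImplicit false

namespace NPC

open Finset Real ArithmeticFunction Pool.Agent.helper39.MT Pool.Agent.helper85.FC

theorem FIN_cnt_mono {h K K' : ℕ} (hK : K ≤ K') (r : ℕ) : cnt h K r ≤ cnt h K' r := by
  classical
  unfold cnt
  refine card_le_card fun m hm => ?_
  rw [mem_filter] at hm ⊢
  refine ⟨hm.1, hm.2.1, ?_, hm.2.2.2⟩
  obtain ⟨a, b, p, q, hp, hq, ha, hb, hab, h1, h2⟩ := hm.2.2.1
  exact ⟨a, b, p, q, hp, hq, ha.trans hK, hb.trans hK, hab, h1, h2⟩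

theorem FIN (hCNT : CNT_stmt) : FIN_stmt := by
  classical
  intro h hh
  obtain ⟨K₀, c, La, a₁, hc, hLa, H⟩ := hCNT h hh
  set a₂ : ℝ := max a₁ (max 4 (La ^ 2 * 4 ^ (K₀ + 1))) with ha₂
  have ha₂1 : a₁ ≤ a₂ := le_max_left _ _
  have ha₂2 : 4 ≤ a₂ := (le_max_left _ _).trans (le_max_right _ _)
  have ha₂3 : La ^ 2 * 4 ^ (K₀ + 1) ≤ a₂ := (le_max_right _ _).trans (le_max_right _ _)
  set N₀ : ℕ := ⌈La * Real.exp (a₂ / 3)⌉₊ + 1 with hN₀
  refine ⟨max (K₀ + 1) N₀, c / La, by positivity, fun N hN => ?_⟩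
  set K : ℕ := max (K₀ + 1) N₀ with hK
  have hN1 : La * Real.exp (a₂ / 3) ≤ N := by
    have e1 : La * Real.exp (a₂ / 3) ≤ (⌈La * Real.exp (a₂ / 3)⌉₊ : ℝ) := Nat.le_ceil _
    have e2 : ⌈La * Real.exp (a₂ / 3)⌉₊ ≤ N := by
      have : N₀ ≤ N := (le_max_right _ _).trans hN
      omega
    exact e1.trans (by exact_mod_cast e2)
  have hN0 : (0 : ℝ) < N := lt_of_lt_of_le (by positivity) hN1
  set a : ℝ := 3 * Real.log (N / La) with ha
  have hexp : Real.exp (a / 3) = N / La := by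
    rw [ha, mul_div_cancel_left₀ _ (by norm_num : (3 : ℝ) ≠ 0), Real.exp_log (by positivity)]
  have hLN : La * Real.exp (a / 3) = N := by rw [hexp]; field_simp
  have haa : a₂ ≤ a := by
    have e1 : Real.exp (a₂ / 3) ≤ Real.exp (a / 3) := by
      rw [hexp, le_div_iff₀ hLa, mul_comm]; exact hN1
    have := Real.exp_le_exp.1 e1
    linarith
  have ha4 : 4 ≤ a := ha₂2.trans haa
  have ha0 : 0 < a := by linarith
  have H1 := H a (ha₂1.trans haa)
  rw [hLN, Nat.ceil_natCast] at H1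
  have e0 : c / La * N = c * Real.exp (a / 3) := by rw [hexp]; ring
  rw [e0]
  refine H1.trans ?_
  have hsub : ({r ∈ range N | Real.exp (a / 4) ≤ ((r : ℕ) : ℝ) ∧
      Real.exp (2 * a / 3) / a ^ K₀ ≤ (cnt h K₀ r : ℝ)} : Finset ℕ) ⊆
      {n ∈ Icc (2 : ℕ) N | ((n : ℕ) : ℝ) ^ 2 / Real.log (n : ℝ) ^ K ≤ (cnt h K n : ℝ)} := by
    intro r hr
    rw [mem_filter, mem_range] at hr
    obtain ⟨hrN, hr1, hr2⟩ := hr
    have hr3 : (2 : ℝ) ≤ r := by
      have e1 : a / 4 + 1 ≤ Real.exp (a / 4) := Real.add_one_le_exp _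
      linarith
    have hr0 : (0 : ℝ) < r := by linarith
    rw [mem_filter, mem_Icc]
    refine ⟨⟨by exact_mod_cast hr3, hrN.le⟩, ?_⟩
    have hlog : a / 4 ≤ Real.log r := by
      rw [Real.le_log_iff_exp_le hr0]; exact hr1
    have hlog1 : 1 ≤ Real.log r := by linarith
    have hrN' : (r : ℝ) ≤ La * Real.exp (a / 3) := by
      rw [hLN]; exact_mod_cast hrN.le
    have hZ2 : Real.exp (2 * a / 3) = Real.exp (a / 3) ^ 2 := by
      rw [← Real.exp_nat_mul]; congr 1; push_cast; ring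
    have hmono : (cnt h K₀ r : ℝ) ≤ (cnt h K r : ℝ) := by
      exact_mod_cast FIN_cnt_mono (show K₀ ≤ K by
        have : K₀ + 1 ≤ K := le_max_left _ _
        omega) r
    refine le_trans ?_ (hr2.trans hmono)
    have e1 : (a / 4) ^ (K₀ + 1) ≤ Real.log r ^ K := by
      calc (a / 4) ^ (K₀ + 1) ≤ Real.log r ^ (K₀ + 1) := pow_le_pow_left₀ (by positivity) hlog _
        _ ≤ Real.log r ^ K := pow_le_pow_right₀ hlog1 (le_max_left _ _)
    calc (r : ℝ) ^ 2 / Real.log (r : ℝ) ^ K ≤ (La * Real.exp (a / 3)) ^ 2 / (a / 4) ^ (K₀ + 1) := by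
          gcongr
      _ = Real.exp (2 * a / 3) / a ^ K₀ * (La ^ 2 * 4 ^ (K₀ + 1) / a) := by
          rw [hZ2, mul_pow, div_pow, pow_succ a K₀]
          have h4 : (4 : ℝ) ^ (K₀ + 1) ≠ 0 := by positivity
          have h5 : a ^ K₀ ≠ 0 := by positivity
          field_simp
      _ ≤ Real.exp (2 * a / 3) / a ^ K₀ * 1 := by
          refine mul_le_mul_of_nonneg_left ?_ (by positivity)
          rw [div_le_one ha0]
          exact ha₂3.trans haa
      _ = _ := mul_one _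
  exact_mod_cast card_le_card hsub

end NPC
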